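import Pool.Agent.Work.MP_63674d_an.St.Suf

/-! Dyadic sums. -/

open MeasureTheory Finset

namespace MP63.St

theorem two_rpow_pow (a : ℝ) (j : ℕ) : ((2 : ℝ) ^ a) ^ j = ((2 : ℝ) ^ j) ^ a := by
  rw [← Real.rpow_natCast, ← Real.rpow_natCast, ← Real.rpow_mul (by norm_num),
    ← Real.rpow_mul (by norm_num), mul_comm]

theorem dyadic_sum (s : ℕ) (t a : ℝ) (ht : 0 < t) (ha : 0 < a) (hst : a = s - t) :
    ∃ C : ℝ, 0 ≤ C ∧ ∀ N J : ℕ, 1 ≤ N →
      ∑ j ∈ range J, ((min N (2 ^ (j + 1)) : ℕ) : ℝ) ^ s * ((2 : ℝ) ^ j) ^ (-t) ≤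
        C * (N : ℝ) ^ a := by
  set u : ℝ := (2 : ℝ) ^ (-t) with hu
  set w : ℝ := (2 : ℝ) ^ a with hw
  have hu0 : 0 < u := by positivity
  have hu1 : u < 1 := by
    rw [hu]
    exact Real.rpow_lt_one_of_one_lt_of_neg (by norm_num) (by linarith)
  have hw1 : 1 < w := Real.one_lt_rpow (by norm_num) ha
  refine ⟨2 ^ s * w / (w - 1) + 1 / (1 - u), ?_, fun N J hN => ?_⟩
  · apply add_nonneg
    · apply div_nonneg (by positivity) (by linarith)
    · apply div_nonneg (by norm_num) (by linarith)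
  have hN1 : (1 : ℝ) ≤ N := by exact_mod_cast hN
  have hN0 : (0 : ℝ) < N := by linarith
  set J0 := Nat.log 2 N + 1 with hJ0
  have hJa : (2 : ℝ) ^ J0 ≤ 2 * N := by
    have h1 : 2 ^ (Nat.log 2 N) ≤ N := Nat.pow_log_le_self 2 (by omega)
    have h2 : (2 : ℝ) ^ (Nat.log 2 N) ≤ N := by exact_mod_cast h1
    rw [hJ0, pow_succ]
    linarith
  have hJb : (N : ℝ) ≤ (2 : ℝ) ^ J0 := by
    have h1 : N < 2 ^ (Nat.log 2 N + 1) := Nat.lt_pow_succ_log_self (by norm_num) N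
    exact_mod_cast h1.le
  set f : ℕ → ℝ := fun j => ((min N (2 ^ (j + 1)) : ℕ) : ℝ) ^ s * ((2 : ℝ) ^ j) ^ (-t) with hf
  have hf0 : ∀ j, 0 ≤ f j := fun j => by positivity
  have h1 : ∑ j ∈ range J, f j ≤ ∑ j ∈ range (J0 + J), f j := by
    refine Finset.sum_le_sum_of_subset_of_nonneg ?_ fun j _ _ => hf0 j
    intro j hj
    rw [Finset.mem_range] at hj ⊢
    omega
  refine h1.trans ?_
  rw [Finset.sum_range_add]
  have hA : ∑ j ∈ range J0, f j ≤ 2 ^ s * w / (w - 1) * (N : ℝ) ^ a := by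
    have h2 : ∀ j ∈ range J0, f j ≤ 2 ^ s * w ^ j := by
      intro j _
      have h3 : ((min N (2 ^ (j + 1)) : ℕ) : ℝ) ^ s ≤ ((2 : ℝ) ^ (j + 1)) ^ s := by
        refine pow_le_pow_left₀ (Nat.cast_nonneg _) ?_ s
        exact_mod_cast min_le_right N (2 ^ (j + 1))
      calc f j ≤ ((2 : ℝ) ^ (j + 1)) ^ s * ((2 : ℝ) ^ j) ^ (-t) :=
            mul_le_mul_of_nonneg_right h3 (by positivity)
        _ = 2 ^ s * (((2 : ℝ) ^ j) ^ s * ((2 : ℝ) ^ j) ^ (-t)) := by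
            rw [pow_succ, mul_pow]
            ring
        _ = 2 ^ s * w ^ j := by
            have e : ((2 : ℝ) ^ j) ^ s = ((2 : ℝ) ^ j) ^ (s : ℝ) := (Real.rpow_natCast _ s).symm
            rw [hw, two_rpow_pow, e, ← Real.rpow_add (by positivity), hst, sub_eq_add_neg]
    refine (Finset.sum_le_sum h2).trans ?_
    rw [← Finset.mul_sum, geom_sum_eq hw1.ne']
    have h4 : w ^ J0 ≤ w * (N : ℝ) ^ a := by
      rw [hw, two_rpow_pow, ← Real.mul_rpow (by norm_num) hN0.le]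
      exact Real.rpow_le_rpow (by positivity) hJa ha.le
    have h5 : (w ^ J0 - 1) / (w - 1) ≤ w * (N : ℝ) ^ a / (w - 1) :=
      div_le_div_of_nonneg_right (by linarith) (by linarith)
    calc (2 : ℝ) ^ s * ((w ^ J0 - 1) / (w - 1)) ≤ 2 ^ s * (w * (N : ℝ) ^ a / (w - 1)) :=
          mul_le_mul_of_nonneg_left h5 (by positivity)
      _ = _ := by ring
  have hB : ∑ j ∈ range J, f (J0 + j) ≤ 1 / (1 - u) * (N : ℝ) ^ a := by
    have h2 : ∀ j ∈ range J, f (J0 + j) ≤ (N : ℝ) ^ a * u ^ j := by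
      intro j _
      have h3 : ((min N (2 ^ (J0 + j + 1)) : ℕ) : ℝ) ^ s ≤ (N : ℝ) ^ s := by
        refine pow_le_pow_left₀ (Nat.cast_nonneg _) ?_ s
        exact_mod_cast min_le_left N (2 ^ (J0 + j + 1))
      have h4 : ((2 : ℝ) ^ J0) ^ (-t) ≤ (N : ℝ) ^ (-t) :=
        Real.rpow_le_rpow_of_nonpos hN0 hJb (by linarith)
      calc f (J0 + j) ≤ (N : ℝ) ^ s * ((2 : ℝ) ^ (J0 + j)) ^ (-t) :=
            mul_le_mul_of_nonneg_right h3 (by positivity)
        _ = (N : ℝ) ^ s * ((2 : ℝ) ^ J0) ^ (-t) * u ^ j := by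
            rw [pow_add, Real.mul_rpow (by positivity) (by positivity), hu, two_rpow_pow]
            ring
        _ ≤ (N : ℝ) ^ s * (N : ℝ) ^ (-t) * u ^ j := by
            refine mul_le_mul_of_nonneg_right ?_ (by positivity)
            exact mul_le_mul_of_nonneg_left h4 (by positivity)
        _ = (N : ℝ) ^ a * u ^ j := by
            rw [← Real.rpow_natCast _ s, ← Real.rpow_add hN0, hst, sub_eq_add_neg]
    refine (Finset.sum_le_sum h2).trans ?_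
    rw [← Finset.mul_sum, mul_comm]
    refine mul_le_mul_of_nonneg_right ?_ (by positivity)
    rw [geom_sum_eq hu1.ne, ← neg_div_neg_eq]
    rw [neg_sub, neg_sub]
    exact div_le_div_of_nonneg_right (by linarith [pow_pos hu0 J]) (by linarith)
  calc ∑ j ∈ range J0, f j + ∑ j ∈ range J, f (J0 + j)
      ≤ 2 ^ s * w / (w - 1) * (N : ℝ) ^ a + 1 / (1 - u) * (N : ℝ) ^ a := add_le_add hA hB
    _ = _ := by ring

theorem sum_dyadic (f : ℕ → ℝ) (J : ℕ) : ∑ n ∈ range (2 ^ J), f n =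
    f 0 + ∑ j ∈ range J, ∑ n ∈ Ico (2 ^ j) (2 ^ (j + 1)), f n := by
  induction J with
  | zero => simp
  | succ J ih =>
    rw [Finset.sum_range_succ, ← add_assoc, ← ih, Finset.range_eq_Ico, Finset.range_eq_Ico,
      Finset.sum_Ico_consecutive f (Nat.zero_le _) (Nat.pow_le_pow_right (by norm_num)
        (Nat.le_succ J))]

/-- **Sequences of small dyadic variation are multipliers.** -/
theorem mult_of_variation {p : ℝ} (hp : 0 < p) (hp1 : p < 1) (l : ℕ → ℂ) (V : ℝ)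
    (hV : ∀ j : ℕ, ∑ n ∈ Ico (2 ^ j) (2 ^ (j + 1)), ‖l (n + 1) - l n‖ ≤
      V * ((2 : ℝ) ^ j) ^ (1 - 1 / p)) : IsMult p l := by
  obtain ⟨s, hs⟩ : ∃ s : ℕ, 1 / p < s + 1 := by
    obtain ⟨s, hs⟩ := exists_nat_gt (1 / p)
    exact ⟨s, by linarith⟩
  have hs' : 1 < ((s + 1 : ℕ) : ℝ) * p := by
    rw [div_lt_iff₀ hp] at hs
    push_cast
    exact hs
  have hp' : 1 < 1 / p := by
    rw [lt_div_iff₀ hp]
    linarith
  set a : ℝ := (s : ℝ) + 1 - 1 / p with ha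
  have ha0 : 0 < a := by linarith
  obtain ⟨C, hC0, hC⟩ := dyadic_sum s (1 / p - 1) a (by linarith) ha0 (by rw [ha]; ring)
  have hV0 : 0 ≤ V := by
    have h1 := hV 0
    have h2 : 0 ≤ ∑ n ∈ Ico (2 ^ 0) (2 ^ (0 + 1)), ‖l (n + 1) - l n‖ :=
      Finset.sum_nonneg fun n _ => norm_nonneg _
    have e : V * ((2 : ℝ) ^ 0) ^ (1 - 1 / p) = V := by
      rw [pow_zero, Real.one_rpow, mul_one]
    rw [e] at h1
    exact h2.trans h1
  set T : ℝ := ‖l 1 - l 0‖ + V * C with hT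
  have hT0 : 0 ≤ T := by positivity
  have key : ∀ N R : ℕ, 1 ≤ N → ∑ n ∈ range R, ((min N (n + 1) : ℕ) : ℝ) ^ s *
      ‖l (n + 1) - l n‖ ≤ T * (N : ℝ) ^ a := by
    intro N R hN
    have hN1 : (1 : ℝ) ≤ N := by exact_mod_cast hN
    have h1 : ∑ n ∈ range R, ((min N (n + 1) : ℕ) : ℝ) ^ s * ‖l (n + 1) - l n‖ ≤
        ∑ n ∈ range (2 ^ R), ((min N (n + 1) : ℕ) : ℝ) ^ s * ‖l (n + 1) - l n‖ := by
      refine Finset.sum_le_sum_of_subset_of_nonneg ?_ fun j _ _ => by positivity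
      intro j hj
      rw [Finset.mem_range] at hj ⊢
      exact hj.trans Nat.lt_two_pow_self
    refine h1.trans ?_
    rw [sum_dyadic]
    have h2 : ∀ j ∈ range R, ∑ n ∈ Ico (2 ^ j) (2 ^ (j + 1)), ((min N (n + 1) : ℕ) : ℝ) ^ s *
        ‖l (n + 1) - l n‖ ≤ V * (((min N (2 ^ (j + 1)) : ℕ) : ℝ) ^ s *
          ((2 : ℝ) ^ j) ^ (-(1 / p - 1))) := by
      intro j _
      calc ∑ n ∈ Ico (2 ^ j) (2 ^ (j + 1)), ((min N (n + 1) : ℕ) : ℝ) ^ s * ‖l (n + 1) - l n‖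
          ≤ ∑ n ∈ Ico (2 ^ j) (2 ^ (j + 1)), ((min N (2 ^ (j + 1)) : ℕ) : ℝ) ^ s *
            ‖l (n + 1) - l n‖ := by
            refine Finset.sum_le_sum fun n hn => ?_
            refine mul_le_mul_of_nonneg_right ?_ (norm_nonneg _)
            refine pow_le_pow_left₀ (Nat.cast_nonneg _) ?_ s
            have := (Finset.mem_Ico.mp hn).2
            exact_mod_cast (show min N (n + 1) ≤ min N (2 ^ (j + 1)) by omega)
        _ = ((min N (2 ^ (j + 1)) : ℕ) : ℝ) ^ s *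
            ∑ n ∈ Ico (2 ^ j) (2 ^ (j + 1)), ‖l (n + 1) - l n‖ := by rw [Finset.mul_sum]
        _ ≤ ((min N (2 ^ (j + 1)) : ℕ) : ℝ) ^ s * (V * ((2 : ℝ) ^ j) ^ (1 - 1 / p)) :=
            mul_le_mul_of_nonneg_left (hV j) (by positivity)
        _ = _ := by
            rw [show -(1 / p - 1) = 1 - 1 / p by ring]
            ring
    have h3 : ((min N (0 + 1) : ℕ) : ℝ) ^ s * ‖l (0 + 1) - l 0‖ ≤ ‖l 1 - l 0‖ * (N : ℝ) ^ a := by
      have h4 : min N (0 + 1) = 1 := by omega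
      rw [h4, Nat.cast_one, one_pow, one_mul]
      have h5 : (1 : ℝ) ≤ (N : ℝ) ^ a := Real.one_le_rpow hN1 ha0.le
      exact le_mul_of_one_le_right (norm_nonneg _) h5
    have h6 := (Finset.sum_le_sum h2)
    rw [← Finset.mul_sum] at h6
    have h7 := mul_le_mul_of_nonneg_left (hC N R hN) hV0
    calc _ ≤ ‖l 1 - l 0‖ * (N : ℝ) ^ a + V * (C * (N : ℝ) ^ a) :=
          add_le_add h3 (h6.trans h7)
      _ = _ := by rw [hT]; ring
  have hB : ∀ n, ‖l n‖ ≤ ‖l 0‖ + T := by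
    intro n
    have h1 : l n = l 0 + ∑ k ∈ range n, (l (k + 1) - l k) := by
      rw [Finset.sum_range_sub]
      ring
    have h2 := key 1 n le_rfl
    have h3 : ∀ k ∈ range n, ((min 1 (k + 1) : ℕ) : ℝ) ^ s * ‖l (k + 1) - l k‖ =
        ‖l (k + 1) - l k‖ := by
      intro k _
      have h4 : min 1 (k + 1) = 1 := by omega
      rw [h4, Nat.cast_one, one_pow, one_mul]
    rw [Finset.sum_congr rfl h3, Nat.cast_one, Real.one_rpow, mul_one] at h2
    rw [h1]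
    refine (norm_add_le _ _).trans ?_
    have h5 := norm_sum_le (range n) (fun k => l (k + 1) - l k)
    linarith
  obtain ⟨C', hC'⟩ := vc_of_bound hp hp1 hs' l _ T hB hT0 key
  rw [main_iff hp hp1 hs']
  refine ⟨2 * Real.pi * C', fun N hN S d hd hd1 => ?_⟩
  rw [cond_integral]
  calc _ ≤ 2 * Real.pi * (C' * (N : ℝ) ^ (((s + 1 : ℕ) : ℝ) * p - 1)) :=
        mul_le_mul_of_nonneg_left (hC' N hN S d hd hd1) (by positivity)
    _ = _ := by ring

end MP63.St
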