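import Pool.Agent.Work.MP_63674d_an.St.Dy

/-! Sequences with lacunary jumps, and sequences with lacunary support. -/

open MeasureTheory Finset

namespace MP63.St

/-- `n` is a Hadamard lacunary sequence of positive integers, with ratio `q > 1`. -/
structure Lac (q : ℝ) (n : ℕ → ℕ) : Prop where
  pos : 0 < n 0
  lt : 1 < q
  step : ∀ j, q * n j ≤ n (j + 1)

theorem Lac.npos {q : ℝ} {n : ℕ → ℕ} (h : Lac q n) (j : ℕ) : 0 < n j := by
  induction j with
  | zero => exact h.pos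
  | succ j ih =>
    have h1 := h.step j
    have h2 : (0 : ℝ) < n j := by exact_mod_cast ih
    have h3 : (0 : ℝ) < n (j + 1) := lt_of_lt_of_le (mul_pos (by linarith [h.lt]) h2) h1
    exact_mod_cast h3

theorem Lac.mono {q : ℝ} {n : ℕ → ℕ} (h : Lac q n) : StrictMono n := by
  refine strictMono_nat_of_lt_succ fun j => ?_
  have h1 := h.step j
  have h2 : (0 : ℝ) < n j := by exact_mod_cast h.npos j
  have h3 : (n j : ℝ) < n (j + 1) := by nlinarith [h.lt]
  exact_mod_cast h3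

theorem Lac.pow {q : ℝ} {n : ℕ → ℕ} (h : Lac q n) (j k : ℕ) : q ^ k * n j ≤ n (j + k) := by
  induction k with
  | zero => simp
  | succ k ih =>
    have h1 := h.step (j + k)
    have hq := h.lt
    calc q ^ (k + 1) * (n j : ℝ) = q * (q ^ k * n j) := by ring
      _ ≤ q * n (j + k) := by gcongr
      _ ≤ n (j + (k + 1)) := h1

theorem Lac.le_of_lt {q : ℝ} {n : ℕ → ℕ} (h : Lac q n) {i j : ℕ} (hij : i < j) :
    q * n i ≤ n j := by
  have h1 := h.step i
  have h2 : n (i + 1) ≤ n j := h.mono.monotone hij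
  have h3 : (n (i + 1) : ℝ) ≤ n j := by exact_mod_cast h2
  linarith

/-- the number of terms in a dyadic block -/
theorem Lac.count {q : ℝ} {n : ℕ → ℕ} (h : Lac q n) : ∃ K : ℕ, ∀ i : ℕ, ∀ F : Finset ℕ,
    (∀ k ∈ F, (∃ j, n j = k) ∧ 2 ^ i ≤ k ∧ k ≤ 2 ^ (i + 1)) → F.card ≤ K := by
  obtain ⟨K, hK⟩ := pow_unbounded_of_one_lt (2 : ℝ) h.lt
  refine ⟨K, fun i F hF => ?_⟩
  by_cases hex : ∃ j, 2 ^ i ≤ n j
  · classical
    set j0 := Nat.find hex with hj0
    have hj0' : 2 ^ i ≤ n j0 := Nat.find_spec hex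
    have hsub : F ⊆ (range K).image fun a => n (j0 + a) := by
      intro k hk
      obtain ⟨⟨j, rfl⟩, h1, h2⟩ := hF k hk
      have h3 : j0 ≤ j := Nat.find_min' hex h1
      refine Finset.mem_image.2 ⟨j - j0, ?_, ?_⟩
      · rw [Finset.mem_range]
        by_contra hcon
        push Not at hcon
        have h4 : j0 + K ≤ j := by omega
        have h5 : n (j0 + K) ≤ n j := h.mono.monotone h4
        have h6 := h.pow j0 K
        have h7 : (0 : ℝ) < n j0 := by exact_mod_cast h.npos j0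
        have h8 : (2 : ℝ) * n j0 < n (j0 + K) := by nlinarith
        have h9 : (2 : ℝ) ^ i ≤ n j0 := by exact_mod_cast hj0'
        have h10 : (n (j0 + K) : ℝ) ≤ 2 ^ (i + 1) := by exact_mod_cast h5.trans h2
        rw [pow_succ] at h10
        linarith
      · show n (j0 + (j - j0)) = n j
        congr 1
        omega
    calc F.card ≤ ((range K).image fun a => n (j0 + a)).card := Finset.card_le_card hsub
      _ ≤ (range K).card := Finset.card_image_le
      _ = K := Finset.card_range K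
  · have : F = ∅ := by
      rw [Finset.eq_empty_iff_forall_notMem]
      intro k hk
      obtain ⟨⟨j, rfl⟩, h1, h2⟩ := hF k hk
      exact hex ⟨j, h1⟩
    rw [this]
    simp

/-- a neighbourhood without other terms -/
theorem Lac.sep {q : ℝ} {n : ℕ → ℕ} (h : Lac q n) (j : ℕ) : ∃ r : ℕ, 1 ≤ r ∧
    (1 - 1 / q) * n j ≤ r ∧ r ≤ n j ∧ ∀ i, i ≠ j → n i + r ≤ n j ∨ n j + r ≤ n i := by
  have hq := h.lt
  have hq0 : 0 < q := by linarith
  have hc : 0 < 1 - 1 / q := by
    have : 1 / q < 1 := by rw [div_lt_one hq0]; exact hq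
    linarith
  have hn : (0 : ℝ) < n j := by exact_mod_cast h.npos j
  refine ⟨⌈(1 - 1 / q) * n j⌉₊, ?_, Nat.le_ceil _, ?_, ?_⟩
  · exact Nat.one_le_ceil_iff.2 (mul_pos hc hn)
  · rw [Nat.ceil_le]
    have : 0 < 1 / q := by positivity
    nlinarith
  · intro i hij
    rcases Nat.lt_or_gt_of_ne hij with h1 | h1
    · left
      have h2 := h.le_of_lt h1
      have h3 : (n i : ℝ) ≤ n j / q := by rw [le_div_iff₀ hq0]; linarith
      have h4 : n i ≤ n j := (h.mono h1).le
      have h5 : ⌈(1 - 1 / q) * (n j : ℝ)⌉₊ ≤ n j - n i := by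
        rw [Nat.ceil_le, Nat.cast_sub h4]
        have : (1 - 1 / q) * (n j : ℝ) = n j - n j / q := by ring
        linarith
      omega
    · right
      have h2 := h.le_of_lt h1
      have h4 : n j ≤ n i := (h.mono h1).le
      have h5 : ⌈(1 - 1 / q) * (n j : ℝ)⌉₊ ≤ n i - n j := by
        rw [Nat.ceil_le, Nat.cast_sub h4]
        have h6 : (1 - 1 / q) * (n j : ℝ) ≤ (q - 1) * n j := by
          refine mul_le_mul_of_nonneg_right ?_ hn.le
          have h7 : 1 - 1 / q = (q - 1) / q := by field_simp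
          rw [h7]
          exact div_le_self (by linarith) hq.le
        linarith
      omega

/-- single windows of a multiplier -/
theorem single_of_mult {p : ℝ} (hp : 0 < p) (hp1 : p < 1) {s : ℕ} (hs : 1 < s * p) (l : ℕ → ℂ)
    (h : IsMult p l) : ∃ C : ℝ, 0 ≤ C ∧ ∀ N : ℕ, 1 ≤ N → ∀ m,
      ∫ x : TT, ‖win s l N m x‖ ^ p ≤ C * (N : ℝ) ^ (s * p - 1) := by
  obtain ⟨C, hC⟩ := bdd_of_isMult hp hp1 l h
  obtain ⟨C', hC'⟩ := necessity hp hp1 hs l C hC
  have hC0 : 0 ≤ C' := by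
    have h0 := hC' 1 le_rfl {0} (fun _ => 1) (fun _ _ => zero_le_one) (by simp)
    rw [Nat.cast_one, Real.one_rpow, mul_one] at h0
    refine le_trans (integral_nonneg fun x => ?_) h0
    exact Real.rpow_nonneg (Finset.sum_nonneg fun i _ => by positivity) _
  refine ⟨C', hC0, fun N hN m => ?_⟩
  have h1 := hC' N hN {m} (fun _ => 1) (fun _ _ => zero_le_one) (by simp)
  have h2 : ∀ x : TT, (∑ m ∈ ({m} : Finset ℕ), (1 : ℝ) * ‖win s l N m x‖ ^ 2) ^ (p / 2) =
      ‖win s l N m x‖ ^ p := by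
    intro x
    rw [Finset.sum_singleton, one_mul, ← Real.rpow_natCast, ← Real.rpow_mul (norm_nonneg _)]
    congr 1
    push_cast
    ring
  simp only [h2] at h1
  exact h1

/-- the largest coefficient -/
theorem bc_max (s N : ℕ) (hs : 1 ≤ s) (hN : 1 ≤ N) : ∃ k, k ≤ s * (N - 1) ∧
    (N : ℝ) ^ s / ((s : ℝ) * N) ≤ bc s N k := by
  have hs0 : (0 : ℝ) < s := by exact_mod_cast hs
  have hN0 : (0 : ℝ) < N := by exact_mod_cast hN
  have hL : ((s * (N - 1) + 1 : ℕ) : ℝ) ≤ (s : ℝ) * N := by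
    have : s * (N - 1) + 1 ≤ s * N := by
      obtain ⟨N', rfl⟩ : ∃ N', N = N' + 1 := ⟨N - 1, by omega⟩
      rw [Nat.add_sub_cancel, Nat.mul_add]
      omega
    exact_mod_cast this
  have h1 : ∑ k ∈ range (s * (N - 1) + 1), (N : ℝ) ^ s / ((s : ℝ) * N) ≤
      ∑ k ∈ range (s * (N - 1) + 1), (bc s N k : ℝ) := by
    rw [bc_sum, Finset.sum_const, card_range, nsmul_eq_mul]
    calc ((s * (N - 1) + 1 : ℕ) : ℝ) * ((N : ℝ) ^ s / ((s : ℝ) * N)) ≤
          (s : ℝ) * N * ((N : ℝ) ^ s / ((s : ℝ) * N)) :=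
          mul_le_mul_of_nonneg_right hL (by positivity)
      _ = (N : ℝ) ^ s := by field_simp
  obtain ⟨k, hk, h2⟩ := Finset.exists_le_of_sum_le ⟨0, by simp⟩ h1
  exact ⟨k, by rw [Finset.mem_range] at hk; omega, h2⟩

theorem jump_bound {p : ℝ} (hp : 0 < p) (hp1 : p < 1) {s : ℕ} (hs1 : 1 ≤ s) (l : ℕ → ℂ) (C : ℝ)
    (hC0 : 0 ≤ C) (hC : ∀ N : ℕ, 1 ≤ N → ∀ m,
      ∫ x : TT, ‖win s l N m x‖ ^ p ≤ C * (N : ℝ) ^ (s * p - 1)) (t r : ℕ) (hr : 1 ≤ r) (c : ℝ)
    (hc : 0 < c) (hct : c * t ≤ r) (ht : 1 ≤ t) (δ : ℂ)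
    (hδ : ∀ N, 1 ≤ N → s * (N - 1) < r → ∀ k, k ≤ s * (N - 1) → ∃ m, ∀ x : TT,
      (bc s N k : ℝ) * ‖δ‖ ≤ ‖win s l N m x‖ + ‖win s l N (m + 1) x‖) :
    ‖δ‖ ≤ ((2 * C) ^ (1 / p) * s * (c / s) ^ (1 - 1 / p)) * (t : ℝ) ^ (1 - 1 / p) := by
  set N : ℕ := (r - 1) / s + 1 with hNd
  have hN : 1 ≤ N := Nat.le_add_left 1 _
  have hNs : s * (N - 1) < r := by
    have h1 : s * ((r - 1) / s) ≤ r - 1 := Nat.mul_div_le _ _
    have h2 : N - 1 = (r - 1) / s := Nat.add_sub_cancel _ _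
    rw [h2]
    omega
  have hNr : r ≤ s * N := by
    have h1 : r - 1 < s * N := Nat.lt_mul_div_succ _ (by omega)
    omega
  have hs0 : (0 : ℝ) < s := by exact_mod_cast hs1
  have hN0 : (0 : ℝ) < N := by exact_mod_cast hN
  have ht0 : (0 : ℝ) < t := by exact_mod_cast ht
  obtain ⟨k, hk, hbc⟩ := bc_max s N hs1 hN
  obtain ⟨m, hm⟩ := hδ N hN hNs k hk
  set b : ℝ := (N : ℝ) ^ s / ((s : ℝ) * N) with hb
  have hb0 : 0 < b := by positivity
  have hc1 : ∀ m, Continuous fun x => ‖win s l N m x‖ ^ p := by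
    intro m
    apply Continuous.rpow_const (continuous_win s l N m).norm
    intro x; right; exact hp.le
  have h1 : (b * ‖δ‖) ^ p ≤ 2 * C * (N : ℝ) ^ (s * p - 1) := by
    have h2 : ∀ x : TT, (b * ‖δ‖) ^ p ≤ ‖win s l N m x‖ ^ p + ‖win s l N (m + 1) x‖ ^ p := by
      intro x
      refine le_trans ?_ (rpow_add_le' hp hp1.le (norm_nonneg _) (norm_nonneg _))
      refine Real.rpow_le_rpow (by positivity) ?_ hp.le
      exact (mul_le_mul_of_nonneg_right hbc (norm_nonneg _)).trans (hm x)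
    have h3 : ∫ _ : TT, (b * ‖δ‖) ^ p ≤
        ∫ x : TT, (‖win s l N m x‖ ^ p + ‖win s l N (m + 1) x‖ ^ p) :=
      integral_mono (integrable_const _) (integ ((hc1 m).add (hc1 (m + 1)))) h2
    rw [integral_add (integ (hc1 m)) (integ (hc1 (m + 1)))] at h3
    have h4 : ∫ _ : TT, (b * ‖δ‖) ^ p = (b * ‖δ‖) ^ p := by simp
    rw [h4] at h3
    have h5 := hC N hN m
    have h6 := hC N hN (m + 1)
    linarith
  have h2 : b * ‖δ‖ ≤ (2 * C) ^ (1 / p) * (N : ℝ) ^ ((s : ℝ) - 1 / p) := by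
    have h3 := Real.rpow_le_rpow (by positivity) h1 (by positivity : (0 : ℝ) ≤ 1 / p)
    have e1 : p * (1 / p) = 1 := by field_simp
    have e2 : ((s : ℝ) * p - 1) * (1 / p) = (s : ℝ) - 1 / p := by field_simp
    rw [← Real.rpow_mul (by positivity), e1, Real.rpow_one, Real.mul_rpow (by positivity)
      (by positivity), ← Real.rpow_mul hN0.le, e2] at h3
    exact h3
  have h3 : ‖δ‖ ≤ (2 * C) ^ (1 / p) * s * (N : ℝ) ^ (1 - 1 / p) := by
    have h4 : ‖δ‖ ≤ (2 * C) ^ (1 / p) * (N : ℝ) ^ ((s : ℝ) - 1 / p) / b := by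
      rw [le_div_iff₀ hb0]
      linarith
    refine h4.trans (le_of_eq ?_)
    have h5 : (N : ℝ) ^ ((s : ℝ) - 1 / p) = (N : ℝ) ^ s * (N : ℝ) ^ (1 - 1 / p) / N := by
      rw [← Real.rpow_natCast (N : ℝ) s, ← Real.rpow_add hN0, eq_div_iff hN0.ne']
      nth_rewrite 2 [← Real.rpow_one (N : ℝ)]
      rw [← Real.rpow_add hN0]
      congr 1
      ring
    rw [h5, hb]
    field_simp
  have h4 : (N : ℝ) ^ (1 - 1 / p) ≤ (c / s * t) ^ (1 - 1 / p) := by
    refine Real.rpow_le_rpow_of_nonpos (by positivity) ?_ ?_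
    · rw [div_mul_eq_mul_div, div_le_iff₀ hs0]
      have : (r : ℝ) ≤ s * N := by exact_mod_cast hNr
      linarith
    · have : 1 < 1 / p := by rw [lt_div_iff₀ hp]; linarith
      linarith
  rw [Real.mul_rpow (by positivity) ht0.le] at h4
  calc ‖δ‖ ≤ (2 * C) ^ (1 / p) * s * (N : ℝ) ^ (1 - 1 / p) := h3
    _ ≤ (2 * C) ^ (1 / p) * s * ((c / s) ^ (1 - 1 / p) * (t : ℝ) ^ (1 - 1 / p)) :=
        mul_le_mul_of_nonneg_left h4 (by positivity)
    _ = _ := by ring

theorem exists_s {p : ℝ} (hp : 0 < p) : ∃ s : ℕ, 1 ≤ s ∧ 1 < (s : ℝ) * p := by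
  obtain ⟨s, hs⟩ := exists_nat_gt (1 / p)
  rw [div_lt_iff₀ hp] at hs
  refine ⟨s, ?_, hs⟩
  by_contra h
  have : s = 0 := by omega
  rw [this] at hs
  simp at hs
  linarith

/-- a sum with few terms -/
theorem few {f : ℕ → ℝ} {S : Finset ℕ} {K : ℕ} {B : ℝ} (hB : 0 ≤ B)
    (h1 : ∀ k ∈ S, f k ≤ B) (h2 : (S.filter fun k => f k ≠ 0).card ≤ K) :
    ∑ k ∈ S, f k ≤ K * B := by
  rw [← Finset.sum_filter_ne_zero]
  calc ∑ k ∈ S.filter (fun k => f k ≠ 0), f k ≤ (S.filter fun k => f k ≠ 0).card • B :=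
        Finset.sum_le_card_nsmul _ _ _ fun k hk => h1 k (Finset.mem_filter.1 hk).1
    _ = ((S.filter fun k => f k ≠ 0).card : ℝ) * B := by rw [nsmul_eq_mul]
    _ ≤ _ := mul_le_mul_of_nonneg_right (by exact_mod_cast h2) hB

/-- **Sequences with lacunary jumps.** -/
theorem step_iff {p : ℝ} (hp : 0 < p) (hp1 : p < 1) {q : ℝ} {n : ℕ → ℕ} (hn : Lac q n)
    (l : ℕ → ℂ) (hl : ∀ k, (∀ j, n j ≠ k + 1) → l (k + 1) = l k) :
    IsMult p l ↔ ∃ C : ℝ, ∀ j, ‖l (n j) - l (n j - 1)‖ ≤ C * (n j : ℝ) ^ (1 - 1 / p) := by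
  have hp' : 1 < 1 / p := by rw [lt_div_iff₀ hp]; linarith
  have hq := hn.lt
  constructor
  · intro h
    obtain ⟨s, hs1, hs⟩ := exists_s hp
    obtain ⟨C, hC0, hC⟩ := single_of_mult hp hp1 hs l h
    have hc : 0 < 1 - 1 / q := by
      have : 1 / q < 1 := by rw [div_lt_one (by linarith)]; exact hq
      linarith
    refine ⟨(2 * C) ^ (1 / p) * s * ((1 - 1 / q) / s) ^ (1 - 1 / p), fun j => ?_⟩
    obtain ⟨r, hr1, hr2, hr3, hr4⟩ := hn.sep j
    refine jump_bound hp hp1 hs1 l C hC0 hC (n j) r hr1 _ hc hr2 (hn.npos j) _ ?_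
    intro N hN hNr k hk
    refine ⟨n j - 1 - k, fun x => ?_⟩
    set m : ℕ := n j - 1 - k with hm
    have hmk : m + k + 1 = n j := by omega
    have h1 : win s l N m x - win s l N (m + 1) x =
        (bc s N k : ℂ) * (l (m + k) - l (m + 1 + k)) * ee k x := by
      unfold win
      rw [← Finset.sum_sub_distrib, Finset.sum_eq_single k]
      · ring
      · intro i hi hik
        rw [Finset.mem_range] at hi
        have h2 : l (m + i + 1) = l (m + i) := by
          refine hl _ fun i' hi' => ?_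
          have h3 : i' ≠ j := by
            rintro rfl
            omega
          rcases hr4 i' h3 with h4 | h4 <;> omega
        have h5 : m + 1 + i = m + i + 1 := by omega
        rw [h5, h2]
        ring
      · intro hk'
        rw [Finset.mem_range] at hk'
        omega
    have h2 : ‖win s l N m x - win s l N (m + 1) x‖ =
        (bc s N k : ℝ) * ‖l (n j) - l (n j - 1)‖ := by
      rw [h1, norm_mul, norm_ee, mul_one, norm_mul, Complex.norm_natCast, norm_sub_rev]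
      have e1 : m + 1 + k = n j := by omega
      have e2 : m + k = n j - 1 := by omega
      rw [e1, e2]
    rw [← h2]
    exact norm_sub_le _ _
  · rintro ⟨C, hC⟩
    have hC0 : 0 ≤ C := by
      have h1 := (norm_nonneg _).trans (hC 0)
      have h2 : (0 : ℝ) < (n 0 : ℝ) ^ (1 - 1 / p) :=
        Real.rpow_pos_of_pos (by exact_mod_cast hn.pos) _
      by_contra hcon
      push Not at hcon
      nlinarith
    obtain ⟨K, hK⟩ := hn.count
    refine mult_of_variation hp hp1 l (K * C) fun i => ?_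
    rw [mul_assoc]
    have hterm : ∀ k ∈ Ico (2 ^ i) (2 ^ (i + 1)), ‖l (k + 1) - l k‖ ≠ 0 → ∃ j, n j = k + 1 := by
      intro k _ hne
      by_contra hcon
      push Not at hcon
      apply hne
      rw [hl k hcon, sub_self, norm_zero]
    refine few (by positivity) ?_ ?_
    · intro k hk
      by_cases h0 : ‖l (k + 1) - l k‖ = 0
      · rw [h0]
        positivity
      · obtain ⟨j, hj⟩ := hterm k hk h0
        have h1 := hC j
        have h2 : n j - 1 = k := by omega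
        rw [h2, hj] at h1
        refine h1.trans (mul_le_mul_of_nonneg_left ?_ hC0)
        refine Real.rpow_le_rpow_of_nonpos (by positivity) ?_ (by linarith)
        have h3 := (Finset.mem_Ico.1 hk).1
        have h4 : 2 ^ i ≤ k + 1 := by omega
        exact_mod_cast h4
    · classical
      have h1 : ((Ico (2 ^ i) (2 ^ (i + 1))).filter fun k => ‖l (k + 1) - l k‖ ≠ 0).card =
          (((Ico (2 ^ i) (2 ^ (i + 1))).filter fun k => ‖l (k + 1) - l k‖ ≠ 0).image
            (fun k => k + 1)).card :=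
        (Finset.card_image_of_injective _ (fun a b hab => by simpa using hab)).symm
      rw [h1]
      refine hK i _ fun k hk => ?_
      obtain ⟨k', hk', rfl⟩ := Finset.mem_image.1 hk
      obtain ⟨h2, h3⟩ := Finset.mem_filter.1 hk'
      have h4 := Finset.mem_Ico.1 h2
      exact ⟨hterm k' h2 h3, by omega, by omega⟩

/-- **Sequences with lacunary support.** -/
theorem lac_iff {p : ℝ} (hp : 0 < p) (hp1 : p < 1) {q : ℝ} {n : ℕ → ℕ} (hn : Lac q n)
    (l : ℕ → ℂ) (hl : ∀ k, (∀ j, n j ≠ k) → l k = 0) :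
    IsMult p l ↔ ∃ C : ℝ, ∀ j, ‖l (n j)‖ ≤ C * (n j : ℝ) ^ (1 - 1 / p) := by
  have hp' : 1 < 1 / p := by rw [lt_div_iff₀ hp]; linarith
  have hq := hn.lt
  constructor
  · intro h
    obtain ⟨s, hs1, hs⟩ := exists_s hp
    obtain ⟨C, hC0, hC⟩ := single_of_mult hp hp1 hs l h
    have hc : 0 < 1 - 1 / q := by
      have : 1 / q < 1 := by rw [div_lt_one (by linarith)]; exact hq
      linarith
    refine ⟨(2 * C) ^ (1 / p) * s * ((1 - 1 / q) / s) ^ (1 - 1 / p), fun j => ?_⟩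
    obtain ⟨r, hr1, hr2, hr3, hr4⟩ := hn.sep j
    refine jump_bound hp hp1 hs1 l C hC0 hC (n j) r hr1 _ hc hr2 (hn.npos j) _ ?_
    intro N hN hNr k hk
    refine ⟨n j - k, fun x => ?_⟩
    set m : ℕ := n j - k with hm
    have hmk : m + k = n j := by omega
    have h1 : win s l N m x = (bc s N k : ℂ) * l (m + k) * ee k x := by
      unfold win
      rw [Finset.sum_eq_single k]
      · intro i hi hik
        rw [Finset.mem_range] at hi
        have h2 : l (m + i) = 0 := by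
          refine hl _ fun i' hi' => ?_
          have h3 : i' ≠ j := by
            rintro rfl
            omega
          rcases hr4 i' h3 with h4 | h4 <;> omega
        rw [h2]
        ring
      · intro hk'
        rw [Finset.mem_range] at hk'
        omega
    have h2 : ‖win s l N m x‖ = (bc s N k : ℝ) * ‖l (n j)‖ := by
      rw [h1, norm_mul, norm_ee, mul_one, norm_mul, Complex.norm_natCast, hmk]
    rw [← h2]
    exact le_add_of_nonneg_right (norm_nonneg _)
  · rintro ⟨C, hC⟩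
    have hC0 : 0 ≤ C := by
      have h1 := (norm_nonneg _).trans (hC 0)
      have h2 : (0 : ℝ) < (n 0 : ℝ) ^ (1 - 1 / p) :=
        Real.rpow_pos_of_pos (by exact_mod_cast hn.pos) _
      by_contra hcon
      push Not at hcon
      nlinarith
    obtain ⟨K, hK⟩ := hn.count
    refine mult_of_variation hp hp1 l (K * C + K * C) fun i => ?_
    have hterm : ∀ k, ‖l k‖ ≠ 0 → ∃ j, n j = k := by
      intro k hne
      by_contra hcon
      push Not at hcon
      apply hne
      rw [hl k hcon, norm_zero]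
    have hval : ∀ k, 2 ^ i ≤ k → ‖l k‖ ≤ C * ((2 : ℝ) ^ i) ^ (1 - 1 / p) := by
      intro k hk
      by_cases h0 : ‖l k‖ = 0
      · rw [h0]
        positivity
      · obtain ⟨j, hj⟩ := hterm k h0
        have h1 := hC j
        rw [hj] at h1
        refine h1.trans (mul_le_mul_of_nonneg_left ?_ hC0)
        refine Real.rpow_le_rpow_of_nonpos (by positivity) ?_ (by linarith)
        exact_mod_cast hk
    have hA : ∑ k ∈ Ico (2 ^ i) (2 ^ (i + 1)), ‖l (k + 1)‖ ≤
        K * (C * ((2 : ℝ) ^ i) ^ (1 - 1 / p)) := by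
      refine few (by positivity) ?_ ?_
      · intro k hk
        exact hval _ (by have := (Finset.mem_Ico.1 hk).1; omega)
      · classical
        have h1 : ((Ico (2 ^ i) (2 ^ (i + 1))).filter fun k => ‖l (k + 1)‖ ≠ 0).card =
            (((Ico (2 ^ i) (2 ^ (i + 1))).filter fun k => ‖l (k + 1)‖ ≠ 0).image
              (fun k => k + 1)).card :=
          (Finset.card_image_of_injective _ (fun a b hab => by simpa using hab)).symm
        rw [h1]
        refine hK i _ fun k hk => ?_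
        obtain ⟨k', hk', rfl⟩ := Finset.mem_image.1 hk
        obtain ⟨h2, h3⟩ := Finset.mem_filter.1 hk'
        have h4 := Finset.mem_Ico.1 h2
        exact ⟨hterm _ h3, by omega, by omega⟩
    have hB : ∑ k ∈ Ico (2 ^ i) (2 ^ (i + 1)), ‖l k‖ ≤
        K * (C * ((2 : ℝ) ^ i) ^ (1 - 1 / p)) := by
      refine few (by positivity) ?_ ?_
      · intro k hk
        exact hval _ (Finset.mem_Ico.1 hk).1
      · refine hK i _ fun k hk => ?_
        obtain ⟨h2, h3⟩ := Finset.mem_filter.1 hk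
        have h4 := Finset.mem_Ico.1 h2
        exact ⟨hterm _ h3, by omega, by omega⟩
    calc ∑ k ∈ Ico (2 ^ i) (2 ^ (i + 1)), ‖l (k + 1) - l k‖
        ≤ ∑ k ∈ Ico (2 ^ i) (2 ^ (i + 1)), (‖l (k + 1)‖ + ‖l k‖) :=
          Finset.sum_le_sum fun k _ => norm_sub_le _ _
      _ = ∑ k ∈ Ico (2 ^ i) (2 ^ (i + 1)), ‖l (k + 1)‖ +
          ∑ k ∈ Ico (2 ^ i) (2 ^ (i + 1)), ‖l k‖ := Finset.sum_add_distrib
      _ ≤ _ := by linarith

end MP63.St
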