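import Pool.Agent.Work.MP_63674d_an.St.Win

/-! Sequences of small dyadic variation are multipliers. -/

open MeasureTheory Finset

namespace MP63.St

theorem int_slow (p : ℝ) (hp : 0 < p) (hp1 : p < 1) (M : ℝ) (hM : 1 ≤ M) :
    ∫ x : TT, (1 + M * ‖x‖) ^ (-p) ≤ (4 / (1 - p)) * M ^ (-p) := by
  have hM0 : 0 < M := by linarith
  have h := AddCircle.intervalIntegral_preimage (1 : ℝ) (-(1/2)) (fun x : TT => (1 + M * ‖x‖) ^ (-p))
  rw [← h]
  have e1 : (-(1/2) + 1 : ℝ) = 1/2 := by norm_num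
  rw [e1]
  have hcont : Continuous fun x : ℝ => (1 + M * |x|) ^ (-p) := by
    apply Continuous.rpow_const (by fun_prop)
    intro x; left; positivity
  have h2 : ∫ x in (-(1/2):ℝ)..(1/2), (1 + M * ‖(x : TT)‖) ^ (-p)
      = ∫ x in (-(1/2):ℝ)..(1/2), (1 + M * |x|) ^ (-p) := by
    apply intervalIntegral.integral_congr
    intro x hx
    rw [Set.uIcc_of_le (by norm_num)] at hx
    have : ‖(x : TT)‖ = |x| := by
      rw [AddCircle.norm_coe_eq_abs_iff _ (by norm_num)]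
      rw [abs_le]; norm_num; constructor <;> linarith [hx.1, hx.2]
    simp only [this]
  rw [h2, ← intervalIntegral.integral_add_adjacent_intervals (b := 0)
    (hcont.intervalIntegrable _ _) (hcont.intervalIntegrable _ _)]
  have h3 : ∫ x in (-(1/2):ℝ)..0, (1 + M * |x|) ^ (-p) = ∫ x in (0:ℝ)..(1/2), (1 + M * |x|) ^ (-p) := by
    have := intervalIntegral.integral_comp_neg (a := (-(1/2) : ℝ)) (b := 0) (fun x : ℝ => (1 + M * |x|) ^ (-p))
    simp only [abs_neg, neg_neg, neg_zero] at this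
    exact this
  rw [h3]
  have h4 : ∫ x in (0:ℝ)..(1/2), (1 + M * |x|) ^ (-p) ≤ (2 / (1 - p)) * M ^ (-p) := by
    have h5 : ∫ x in (0:ℝ)..(1/2), (1 + M * |x|) ^ (-p) = ∫ x in (0:ℝ)..(1/2), (1 + M * x) ^ (-p) := by
      apply intervalIntegral.integral_congr
      intro x hx
      rw [Set.uIcc_of_le (by norm_num)] at hx
      simp only [abs_of_nonneg hx.1]
    rw [h5]
    have h6 : ∫ x in (0:ℝ)..(1/2), (1 + M * x) ^ (-p)
        = M⁻¹ • ∫ y in (1 + M * 0)..(1 + M * (1/2)), y ^ (-p) := by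
      exact intervalIntegral.integral_comp_add_mul (fun y : ℝ => y ^ (-p)) hM0.ne' 1
    rw [h6, integral_rpow (Or.inl (by linarith))]
    simp only [mul_zero, add_zero, Real.one_rpow, smul_eq_mul]
    have h8 : (1 + M * (1/2)) ^ (-p + 1) ≤ 2 * M ^ (1 - p) := by
      calc (1 + M * (1/2)) ^ (-p + 1) ≤ (2 * M) ^ (-p + 1) := by
            apply Real.rpow_le_rpow (by positivity) (by linarith) (by linarith)
        _ = 2 ^ (1 - p) * M ^ (1 - p) := by
            rw [Real.mul_rpow (by norm_num) hM0.le, show -p + 1 = 1 - p by ring]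
        _ ≤ 2 ^ (1 : ℝ) * M ^ (1 - p) := by
            refine mul_le_mul_of_nonneg_right ?_ (by positivity)
            exact Real.rpow_le_rpow_of_exponent_le (by norm_num) (by linarith)
        _ = 2 * M ^ (1 - p) := by rw [Real.rpow_one]
    have h9 : ((1 + M * (1 / 2)) ^ (-p + 1) - 1) / (-p + 1) ≤ 2 * M ^ (1 - p) / (1 - p) := by
      rw [show -p + 1 = 1 - p by ring] at h8 ⊢
      exact div_le_div_of_nonneg_right (by linarith) (by linarith)
    calc M⁻¹ * (((1 + M * (1 / 2)) ^ (-p + 1) - 1) / (-p + 1))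
        ≤ M⁻¹ * (2 * M ^ (1 - p) / (1 - p)) := by gcongr
      _ = 2 / (1 - p) * M ^ (-p) := by
        have h10 : M ^ (1 - p) = M * M ^ (-p) := by
          rw [show (1 - p : ℝ) = 1 + -p by ring, Real.rpow_add hM0, Real.rpow_one]
        rw [h10]
        field_simp
  calc _ ≤ (2 / (1 - p)) * M ^ (-p) + (2 / (1 - p)) * M ^ (-p) := add_le_add h4 h4
    _ = _ := by ring

/-- the integral of the p-th power of the weak kernel -/
theorem int_bt (p : ℝ) (hp : 0 < p) (hp1 : p < 1) : ∃ C : ℝ, 0 ≤ C ∧ ∀ N : ℕ, 1 ≤ N →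
    ∫ x : TT, bt N x ^ p ≤ C := by
  refine ⟨2 ^ p * (4 / (1 - p)), ?_, fun N hN => ?_⟩
  · apply mul_nonneg (by positivity)
    apply div_nonneg (by norm_num) (by linarith)
  have hN1 : (1 : ℝ) ≤ N := by exact_mod_cast hN
  have hN0 : (0 : ℝ) < N := by linarith
  have h1 : ∀ x : TT, bt N x ^ p = (2 * N) ^ p * (1 + (N : ℝ) * ‖x‖) ^ (-p) := by
    intro x
    have hpos : 0 < 1 + (N : ℝ) * ‖x‖ := by positivity
    unfold bt
    rw [Real.div_rpow (by positivity) hpos.le, Real.rpow_neg hpos.le, div_eq_mul_inv]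
  simp_rw [h1]
  rw [integral_const_mul]
  calc (2 * (N : ℝ)) ^ p * ∫ x : TT, (1 + (N : ℝ) * ‖x‖) ^ (-p)
      ≤ (2 * N) ^ p * ((4 / (1 - p)) * (N : ℝ) ^ (-p)) := by
        gcongr
        exact int_slow p hp hp1 N hN1
    _ = 2 ^ p * (4 / (1 - p)) * ((N : ℝ) ^ p * (N : ℝ) ^ (-p)) := by
        rw [Real.mul_rpow (by norm_num) hN0.le]
        ring
    _ = _ := by rw [← Real.rpow_add hN0, add_neg_cancel, Real.rpow_zero, mul_one]

/-- the condition for the class of the sequences of small dyadic variation -/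
theorem vc_of_bound {p : ℝ} (hp : 0 < p) (hp1 : p < 1) {s : ℕ} (hs : 1 < ((s + 1 : ℕ) : ℝ) * p)
    (l : ℕ → ℂ) (B T : ℝ) (hB : ∀ n, ‖l n‖ ≤ B) (hT0 : 0 ≤ T)
    (hT : ∀ N R : ℕ, 1 ≤ N → ∑ n ∈ range R, ((min N (n + 1) : ℕ) : ℝ) ^ s * ‖l (n + 1) - l n‖ ≤
      T * (N : ℝ) ^ ((s : ℝ) + 1 - 1 / p)) :
    ∃ C : ℝ, VC p (s + 1) l C := by
  obtain ⟨C1, hC1, h1⟩ := int_dir (((s + 1 : ℕ) : ℝ) * p) hs
  obtain ⟨C2, hC2, h2⟩ := int_bt p hp hp1
  have hB0 : 0 ≤ B := (norm_nonneg _).trans (hB 0)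
  refine ⟨B ^ p * C1 + T ^ p * C2, fun N hN S d hd hd1 => ?_⟩
  have hN1 : (1 : ℝ) ≤ N := by exact_mod_cast hN
  have hN0 : (0 : ℝ) < N := by linarith
  set K : TT → ℝ := fun x => ‖∑ k ∈ range N, ee k x‖ with hK
  have hKc : Continuous K := by
    apply Continuous.norm
    exact continuous_finsetSum _ fun k _ => continuous_ee k
  set G : TT → ℝ := fun x => B * K x ^ (s + 1) + T * (N : ℝ) ^ ((s : ℝ) + 1 - 1 / p) * bt N x
    with hG
  have hwin : ∀ m x, ‖win (s + 1) l N m x‖ ≤ G x := fun m x =>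
    win_bound s N m l B _ hB (fun R => hT N R hN) hN x
  have hG0 : ∀ x, 0 ≤ G x := fun x => (norm_nonneg _).trans (hwin 0 x)
  have hpt : ∀ x, (∑ m ∈ S, d m * ‖win (s + 1) l N m x‖ ^ 2) ^ (p / 2) ≤
      B ^ p * K x ^ (((s + 1 : ℕ) : ℝ) * p) +
        (T * (N : ℝ) ^ ((s : ℝ) + 1 - 1 / p)) ^ p * bt N x ^ p := by
    intro x
    have h3 : ∑ m ∈ S, d m * ‖win (s + 1) l N m x‖ ^ 2 ≤ G x ^ 2 := by
      calc ∑ m ∈ S, d m * ‖win (s + 1) l N m x‖ ^ 2 ≤ ∑ m ∈ S, d m * G x ^ 2 := by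
            refine Finset.sum_le_sum fun m hm => ?_
            refine mul_le_mul_of_nonneg_left ?_ (hd m hm)
            exact pow_le_pow_left₀ (norm_nonneg _) (hwin m x) 2
        _ = G x ^ 2 := by rw [← Finset.sum_mul, hd1, one_mul]
    calc (∑ m ∈ S, d m * ‖win (s + 1) l N m x‖ ^ 2) ^ (p / 2) ≤ (G x ^ 2) ^ (p / 2) := by
          apply Real.rpow_le_rpow _ h3 (by positivity)
          exact Finset.sum_nonneg fun m hm => mul_nonneg (hd m hm) (by positivity)
      _ = G x ^ p := by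
          rw [← Real.rpow_natCast, ← Real.rpow_mul (hG0 x)]
          congr 1
          push_cast
          ring
      _ ≤ (B * K x ^ (s + 1)) ^ p + (T * (N : ℝ) ^ ((s : ℝ) + 1 - 1 / p) * bt N x) ^ p := by
          apply rpow_add_le' hp hp1.le
          · exact mul_nonneg hB0 (by positivity)
          · exact mul_nonneg (by positivity) (bt_nonneg N x)
      _ = _ := by
          rw [Real.mul_rpow hB0 (by positivity), Real.mul_rpow (by positivity) (bt_nonneg N x)]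
          congr 2
          rw [← Real.rpow_natCast, ← Real.rpow_mul (norm_nonneg _)]
  have hc1 : Continuous fun x => K x ^ (((s + 1 : ℕ) : ℝ) * p) := by
    apply Continuous.rpow_const hKc
    intro x; right; positivity
  have hc2 : Continuous fun x => bt N x ^ p := by
    apply Continuous.rpow_const (continuous_bt N)
    intro x; right; exact hp.le
  have hc3 : Continuous fun x => (∑ m ∈ S, d m * ‖win (s + 1) l N m x‖ ^ 2) ^ (p / 2) := by
    apply Continuous.rpow_const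
    · refine continuous_finsetSum _ fun m _ => ?_
      exact continuous_const.mul ((continuous_win (s + 1) l N m).norm.pow 2)
    · intro x; right; positivity
  have h4 : ∫ x : TT, (∑ m ∈ S, d m * ‖win (s + 1) l N m x‖ ^ 2) ^ (p / 2) ≤
      ∫ x : TT, (B ^ p * K x ^ (((s + 1 : ℕ) : ℝ) * p) +
        (T * (N : ℝ) ^ ((s : ℝ) + 1 - 1 / p)) ^ p * bt N x ^ p) :=
    integral_mono (integ hc3)
      (integ ((continuous_const.mul hc1).add (continuous_const.mul hc2))) hpt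
  have i1 : Integrable (fun x : TT => B ^ p * K x ^ (((s + 1 : ℕ) : ℝ) * p)) :=
    integ (continuous_const.mul hc1)
  have i2 : Integrable (fun x : TT =>
      (T * (N : ℝ) ^ ((s : ℝ) + 1 - 1 / p)) ^ p * bt N x ^ p) := integ (continuous_const.mul hc2)
  refine h4.trans ?_
  rw [integral_add i1 i2, integral_const_mul, integral_const_mul]
  have h5 : (T * (N : ℝ) ^ ((s : ℝ) + 1 - 1 / p)) ^ p =
      T ^ p * (N : ℝ) ^ (((s + 1 : ℕ) : ℝ) * p - 1) := by
    rw [Real.mul_rpow hT0 (by positivity), ← Real.rpow_mul hN0.le]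
    congr 2
    push_cast
    field_simp
  rw [h5]
  have h6 := h1 N hN
  have h7 := h2 N hN
  have h8 : B ^ p * (∫ x : TT, K x ^ (((s + 1 : ℕ) : ℝ) * p)) ≤
      B ^ p * (C1 * (N : ℝ) ^ (((s + 1 : ℕ) : ℝ) * p - 1)) :=
    mul_le_mul_of_nonneg_left h6 (by positivity)
  have h9 : T ^ p * (N : ℝ) ^ (((s + 1 : ℕ) : ℝ) * p - 1) * (∫ x : TT, bt N x ^ p) ≤
      T ^ p * (N : ℝ) ^ (((s + 1 : ℕ) : ℝ) * p - 1) * C2 :=
    mul_le_mul_of_nonneg_left h7 (by positivity)
  refine (add_le_add h8 h9).trans (le_of_eq ?_)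
  ring

end MP63.St
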