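import Pool.Agent.Work.MP_63674d_an.Final

/-! Windows of sequences of small dyadic variation. -/

open MeasureTheory Finset

namespace MP63.St

/-- `2 N / (1 + N |x|)` -/
noncomputable def bt (N : ℕ) (x : TT) : ℝ := 2 * N / (1 + N * ‖x‖)

theorem bt_nonneg (N : ℕ) (x : TT) : 0 ≤ bt N x := by
  unfold bt
  positivity

theorem continuous_bt (N : ℕ) : Continuous (bt N) := by
  unfold bt
  apply Continuous.div (by fun_prop) (by fun_prop)
  intro x
  positivity

theorem bt_mono {M N : ℕ} (h : M ≤ N) (x : TT) : bt M x ≤ bt N x := by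
  unfold bt
  have hM : (M : ℝ) ≤ N := by exact_mod_cast h
  have h0 : (0 : ℝ) ≤ M := Nat.cast_nonneg M
  have hx := norm_nonneg x
  rw [div_le_div_iff₀ (by positivity) (by positivity)]
  nlinarith

theorem dir_le (M : ℕ) (x : TT) : ‖∑ k ∈ range M, ee k x‖ ≤ bt M x := by
  unfold bt
  rw [le_div_iff₀ (by positivity)]
  exact dir_bound M x

/-- multiplication by `1 + X + ... + X ^ (N - 1)` -/
theorem bc_succ (s N i : ℕ) :
    bc (s + 1) N i = ∑ j ∈ range (i + 1), if i - j < N then bc s N j else 0 := by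
  unfold bc
  rw [pow_succ, Polynomial.coeff_mul, Finset.Nat.sum_antidiagonal_eq_sum_range_succ_mk]
  refine Finset.sum_congr rfl fun j hj => ?_
  rw [Polynomial.finsetSum_coeff]
  simp only [Polynomial.coeff_X_pow]
  rw [Finset.sum_ite_eq]
  simp only [Finset.mem_range]
  split_ifs <;> simp

/-- initial segments of a product with `1 + X + ... + X ^ (N - 1)` -/
theorem seg_mul {R : Type*} [CommSemiring R] (b : ℕ → R) (z : R) (N k : ℕ) :
    ∑ i ∈ range k, (∑ j ∈ range (i + 1), if i - j < N then b j else 0) * z ^ i =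
      ∑ j ∈ range k, b j * z ^ j * ∑ u ∈ range (min (k - j) N), z ^ u := by
  have h := Finset.sum_range_diag_flip k (fun j u => if u < N then b j * z ^ (j + u) else 0)
  have h1 : ∑ i ∈ range k, (∑ j ∈ range (i + 1), if i - j < N then b j else 0) * z ^ i =
      ∑ i ∈ range k, ∑ j ∈ range (i + 1), (if i - j < N then b j * z ^ (j + (i - j)) else 0) := by
    refine Finset.sum_congr rfl fun i _ => ?_
    rw [Finset.sum_mul]
    refine Finset.sum_congr rfl fun j hj => ?_
    have hji : j + (i - j) = i := by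
      have := Finset.mem_range.mp hj
      omega
    rw [hji]
    split_ifs <;> simp
  rw [h1]
  refine h.trans ?_
  refine Finset.sum_congr rfl fun j _ => ?_
  rw [← Finset.sum_filter]
  have h2 : (range (k - j)).filter (fun u => u < N) = range (min (k - j) N) := by
    ext u
    simp only [Finset.mem_filter, Finset.mem_range]
    omega
  rw [h2, Finset.mul_sum]
  refine Finset.sum_congr rfl fun u _ => ?_
  rw [pow_add]
  ring

theorem bc_partial (s N k : ℕ) : ∑ i ∈ range k, bc s N i ≤ (min N k) ^ s := by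
  induction s with
  | zero =>
    rw [pow_zero]
    have h : ∀ i ∈ range k, bc 0 N i = if i = 0 then 1 else 0 := by
      intro i _
      unfold bc
      rw [pow_zero, Polynomial.coeff_one]
    rw [Finset.sum_congr rfl h, Finset.sum_ite_eq']
    split_ifs <;> omega
  | succ s ih =>
    have h := seg_mul (fun j => bc s N j) 1 N k
    simp only [one_pow, mul_one, Finset.sum_const, Finset.card_range, smul_eq_mul] at h
    have h1 : ∑ i ∈ range k, bc (s + 1) N i =
        ∑ i ∈ range k, ∑ j ∈ range (i + 1), if i - j < N then bc s N j else 0 :=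
      Finset.sum_congr rfl fun i _ => bc_succ s N i
    rw [h1, h]
    calc ∑ j ∈ range k, bc s N j * min (k - j) N ≤ ∑ j ∈ range k, bc s N j * min N k := by
          refine Finset.sum_le_sum fun j _ => Nat.mul_le_mul_left _ (by omega)
      _ = (∑ j ∈ range k, bc s N j) * min N k := by rw [Finset.sum_mul]
      _ ≤ (min N k) ^ s * min N k := Nat.mul_le_mul_right _ ih
      _ = _ := by rw [pow_succ]

/-- initial segments of the kernels -/
theorem seg_bound (s N k : ℕ) (x : TT) :
    ‖∑ i ∈ range k, (bc (s + 1) N i : ℂ) * ee i x‖ ≤ (min N k : ℕ) ^ s * bt N x := by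
  have h1 : ∑ i ∈ range k, (bc (s + 1) N i : ℂ) * ee i x =
      ∑ i ∈ range k, (∑ j ∈ range (i + 1), if i - j < N then (bc s N j : ℂ) else 0) *
        (ee 1 x) ^ i := by
    refine Finset.sum_congr rfl fun i _ => ?_
    rw [bc_succ, ee_nat_pow]
    push_cast
    rfl
  rw [h1, seg_mul]
  refine (norm_sum_le _ _).trans ?_
  have h2 : ∀ j ∈ range k, ‖(bc s N j : ℂ) * (ee 1 x) ^ j *
      ∑ u ∈ range (min (k - j) N), (ee 1 x) ^ u‖ ≤ (bc s N j : ℝ) * bt N x := by
    intro j _
    rw [norm_mul, norm_mul, norm_pow, norm_ee, one_pow, mul_one, Complex.norm_natCast]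
    refine mul_le_mul_of_nonneg_left ?_ (Nat.cast_nonneg _)
    have h3 : ∑ u ∈ range (min (k - j) N), (ee 1 x) ^ u =
        ∑ u ∈ range (min (k - j) N), ee u x :=
      Finset.sum_congr rfl fun u _ => (ee_nat_pow u x).symm
    rw [h3]
    exact (dir_le _ x).trans (bt_mono (min_le_right _ _) x)
  refine (Finset.sum_le_sum h2).trans ?_
  rw [← Finset.sum_mul]
  refine mul_le_mul_of_nonneg_right ?_ (bt_nonneg N x)
  exact_mod_cast bc_partial s N k

/-- summation by parts -/
theorem by_parts (a c : ℕ → ℂ) (n : ℕ) : ∑ k ∈ range (n + 1), a k * c k =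
    (∑ i ∈ range (n + 1), a i) * c n -
      ∑ k ∈ range n, (∑ i ∈ range (k + 1), a i) * (c (k + 1) - c k) := by
  induction n with
  | zero => simp
  | succ n ih =>
    rw [Finset.sum_range_succ, ih, Finset.sum_range_succ _ (n + 1),
      Finset.sum_range_succ (fun k => (∑ i ∈ range (k + 1), a i) * (c (k + 1) - c k)) n]
    ring

/-- the bound for a window -/
theorem win_bound (s N m : ℕ) (l : ℕ → ℂ) (B T : ℝ) (hB : ∀ n, ‖l n‖ ≤ B)
    (hT : ∀ R, ∑ n ∈ range R, ((min N (n + 1) : ℕ) : ℝ) ^ s * ‖l (n + 1) - l n‖ ≤ T) (hN : 1 ≤ N)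
    (x : TT) :
    ‖win (s + 1) l N m x‖ ≤ B * ‖∑ k ∈ range N, ee k x‖ ^ (s + 1) + T * bt N x := by
  set L := (s + 1) * (N - 1) with hL
  have h1 : win (s + 1) l N m x =
      ∑ k ∈ range (L + 1), ((bc (s + 1) N k : ℂ) * ee k x) * l (m + k) := by
    unfold win
    refine Finset.sum_congr rfl fun k _ => ?_
    ring
  rw [h1, by_parts, bc_gen (s + 1) N hN x]
  refine (norm_sub_le _ _).trans ?_
  refine add_le_add ?_ ?_
  · rw [norm_mul, norm_pow, mul_comm]
    exact mul_le_mul_of_nonneg_right (hB _) (by positivity)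
  · refine (norm_sum_le _ _).trans ?_
    have h2 : ∀ k ∈ range L, ‖(∑ i ∈ range (k + 1), (bc (s + 1) N i : ℂ) * ee i x) *
        (l (m + (k + 1)) - l (m + k))‖ ≤
        (((min N (m + k + 1) : ℕ) : ℝ) ^ s * ‖l (m + k + 1) - l (m + k)‖) * bt N x := by
      intro k _
      rw [norm_mul]
      have h3 := seg_bound s N (k + 1) x
      have h4 : (((min N (k + 1) : ℕ) : ℝ)) ^ s ≤ ((min N (m + k + 1) : ℕ) : ℝ) ^ s := by
        refine pow_le_pow_left₀ (Nat.cast_nonneg _) ?_ s
        exact_mod_cast (show min N (k + 1) ≤ min N (m + k + 1) by omega)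
      have h5 : ‖l (m + (k + 1)) - l (m + k)‖ = ‖l (m + k + 1) - l (m + k)‖ := by
        rw [add_assoc]
      rw [h5]
      calc _ ≤ (((min N (k + 1) : ℕ) : ℝ)) ^ s * bt N x * ‖l (m + k + 1) - l (m + k)‖ :=
            mul_le_mul_of_nonneg_right h3 (norm_nonneg _)
        _ ≤ ((min N (m + k + 1) : ℕ) : ℝ) ^ s * bt N x * ‖l (m + k + 1) - l (m + k)‖ := by
            refine mul_le_mul_of_nonneg_right ?_ (norm_nonneg _)
            exact mul_le_mul_of_nonneg_right h4 (bt_nonneg N x)
        _ = _ := by ring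
    refine (Finset.sum_le_sum h2).trans ?_
    rw [← Finset.sum_mul]
    refine mul_le_mul_of_nonneg_right ?_ (bt_nonneg N x)
    refine le_trans ?_ (hT (m + L))
    rw [Finset.sum_range_add (fun n => ((min N (n + 1) : ℕ) : ℝ) ^ s * ‖l (n + 1) - l n‖) m L]
    have h6 : 0 ≤ ∑ n ∈ range m, ((min N (n + 1) : ℕ) : ℝ) ^ s * ‖l (n + 1) - l n‖ :=
      Finset.sum_nonneg fun n _ => by positivity
    linarith

end MP63.St
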